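import Pool.Agent.helper43.DHB.SpecB

/-!
# d2:bDGT (helper88): one digit
-/

set_option autoImplicit false

open Filter Topology MeasureTheory
open scoped commutatorElement

namespace Pool.Agent.helper90.DH

open Pool.Agent.helper64.D2

theorem bDGT : bDGT_stmt := by
  classical
  intro P b θ ρ y N hP hθ hρ hN
  have hNr : (0 : ℝ) < N := by exact_mod_cast hN
  set A : Set (Fin N) := {c : Fin N | |P (b + θ * (((c : ℕ) : ℝ) / N)) - y| ≤ ρ} with hA
  have hfin : A.Finite := Set.toFinite A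
  have hcard : ((Set.ncard A : ℕ) : ℝ) ≤ 4 * ρ * N / θ + 1 := by
    rcases A.eq_empty_or_nonempty with h | h
    · rw [h, Set.ncard_empty]
      push_cast
      positivity
    · have hne : hfin.toFinset.Nonempty := by rwa [Set.Finite.toFinset_nonempty]
      set c₀ : Fin N := hfin.toFinset.min' hne with hc₀
      have hc₀A : c₀ ∈ A := by
        have := hfin.toFinset.min'_mem hne
        rwa [Set.Finite.mem_toFinset] at this
      have hmin : ∀ c ∈ A, (c₀ : ℕ) ≤ (c : ℕ) := by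
        intro c hc
        have h1 : c₀ ≤ c := hfin.toFinset.min'_le c (by rwa [Set.Finite.mem_toFinset])
        exact h1
      have hL : 0 ≤ 4 * ρ * N / θ := by positivity
      have hdist : ∀ c ∈ A, ((((c : ℕ) - (c₀ : ℕ) : ℕ)) : ℝ) ≤ 4 * ρ * N / θ := by
        intro c hc
        have h1 : |P (b + θ * (((c : ℕ) : ℝ) / N)) - y| ≤ ρ := hc
        have h2 : |P (b + θ * (((c₀ : ℕ) : ℝ) / N)) - y| ≤ ρ := hc₀A
        have h3 := hP (b + θ * (((c : ℕ) : ℝ) / N)) (b + θ * (((c₀ : ℕ) : ℝ) / N))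
        have h4 : |P (b + θ * (((c : ℕ) : ℝ) / N)) - P (b + θ * (((c₀ : ℕ) : ℝ) / N))| ≤ 2 * ρ := by
          have h5 := abs_sub_le (P (b + θ * (((c : ℕ) : ℝ) / N))) y (P (b + θ * (((c₀ : ℕ) : ℝ) / N)))
          rw [abs_sub_comm y] at h5
          linarith
        have h6 : b + θ * (((c : ℕ) : ℝ) / N) - (b + θ * (((c₀ : ℕ) : ℝ) / N)) = θ * ((((c : ℕ) : ℝ) - ((c₀ : ℕ) : ℝ)) / N) := by
          field_simp
          ring
        have h7 : (0 : ℝ) ≤ ((c : ℕ) : ℝ) - ((c₀ : ℕ) : ℝ) := by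
          have : ((c₀ : ℕ) : ℝ) ≤ ((c : ℕ) : ℝ) := by exact_mod_cast hmin c hc
          linarith
        rw [h6, abs_of_nonneg (by positivity)] at h3
        rw [Nat.cast_sub (hmin c hc), le_div_iff₀ hθ]
        have h8 : θ * ((((c : ℕ) : ℝ) - ((c₀ : ℕ) : ℝ)) / N) ≤ 4 * ρ := by linarith
        have h9 : θ * ((((c : ℕ) : ℝ) - ((c₀ : ℕ) : ℝ)) / N) * N ≤ 4 * ρ * N := mul_le_mul_of_nonneg_right h8 hNr.le
        have h10 : θ * ((((c : ℕ) : ℝ) - ((c₀ : ℕ) : ℝ)) / N) * N = (((c : ℕ) : ℝ) - ((c₀ : ℕ) : ℝ)) * θ := by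
          field_simp
        linarith
      have hle : Set.ncard A ≤ ⌊4 * ρ * N / θ⌋₊ + 1 := by
        rw [Set.ncard_eq_toFinset_card A hfin, ← Finset.card_range (⌊4 * ρ * N / θ⌋₊ + 1)]
        refine Finset.card_le_card_of_injOn (fun c : Fin N => (c : ℕ) - (c₀ : ℕ)) ?_ ?_
        · intro c hc
          have hc' : c ∈ A := (Set.Finite.mem_toFinset hfin).1 hc
          simp only [Finset.coe_range, Set.mem_Iio]
          exact Nat.lt_succ_of_le (Nat.le_floor (hdist c hc'))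
        · intro c hc c' hc' h
          have h1 : c ∈ A := (Set.Finite.mem_toFinset hfin).1 hc
          have h2 : c' ∈ A := (Set.Finite.mem_toFinset hfin).1 hc'
          have h3 := hmin c h1
          have h4 := hmin c' h2
          have h5 : (c : ℕ) - (c₀ : ℕ) = (c' : ℕ) - (c₀ : ℕ) := h
          exact Fin.ext (by omega)
      calc ((Set.ncard A : ℕ) : ℝ) ≤ ((⌊4 * ρ * N / θ⌋₊ + 1 : ℕ) : ℝ) := by exact_mod_cast hle
        _ = (⌊4 * ρ * N / θ⌋₊ : ℝ) + 1 := by push_cast; ring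
        _ ≤ 4 * ρ * N / θ + 1 := by linarith [Nat.floor_le hL]
  unfold bpr
  rw [Fintype.card_fin, div_le_iff₀ hNr]
  have h1 : (4 * ρ / θ + 1 / N) * N = 4 * ρ * N / θ + 1 := by
    field_simp
  rw [h1]
  exact hcard

end Pool.Agent.helper90.DH
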